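import Pool.Agent.helper65.GF.SpecG

set_option autoImplicit false

namespace Pool.Agent.GD

open Finset Metric Filter Topology

lemma YPB_psk (v : ℕ → ℂ) (Φ : ℕ → ℕ → ℂ) (m n : ℕ) : psk v Φ (m + 1) n = gs v (Φ m) n := by
  unfold psk
  rw [if_neg (by omega), show m + 1 - 1 = m by omega]

lemma YPB_cmb (v : ℕ → ℂ) (p : ℕ) (Φ : ℕ → ℕ → ℂ) (c : ℕ → ℂ) (n : ℕ) :
    cmb (p + 1) (psk v Φ) c n = gs v (cmbh p Φ (fun m => c (m + 1))) n := by
  have hI : ∑ m ∈ Icc 1 (p + 1), c m * psk v Φ m n =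
      ∑ m ∈ range (p + 1), c (m + 1) * psk v Φ (m + 1) n := by
    rw [Finset.range_eq_Ico, Finset.sum_Ico_add' (fun m => c m * psk v Φ m n) 0 (p + 1) 1]
    refine Finset.sum_congr ?_ fun _ _ => rfl
    ext a
    simp only [mem_Icc, mem_Ico]
    omega
  unfold cmb
  rw [hI]
  unfold gs cmbh
  simp only [Finset.mul_sum]
  rw [Finset.sum_comm]
  refine Finset.sum_congr rfl fun m _ => ?_
  rw [YPB_psk]
  unfold gs
  rw [Finset.mul_sum]
  refine Finset.sum_congr rfl fun r _ => by ring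

theorem YPB : YPB_stmt := by
  intro p v Φ hG hv
  refine ⟨?_, ?_, fun c n => YPB_cmb v p Φ c n⟩
  · intro m n h
    obtain ⟨q, rfl⟩ : ∃ q, m = q + 1 := ⟨m - 1, by omega⟩
    rw [YPB_psk]
    unfold gs
    refine Finset.sum_eq_zero fun r hr => ?_
    have hr' := mem_range.1 hr
    rw [hG.low q r (by omega), mul_zero]
  · intro m
    rcases Nat.eq_zero_or_pos m with h | h
    · subst h
      simp [psk]
    · obtain ⟨q, rfl⟩ : ∃ q, m = q + 1 := ⟨m - 1, by omega⟩
      rw [YPB_psk]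
      unfold gs
      rw [Finset.sum_range_succ, Finset.sum_eq_zero, zero_add, show q + 1 - 1 - q = 0 by omega, hv,
        one_mul, hG.diag q]
      intro r hr
      have hr' := mem_range.1 hr
      rw [hG.low q r hr', mul_zero]

end Pool.Agent.GD
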